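import Pool.Agent.helper7.ZE.Spec

/-!
# Theorem ZE (MP_baa4d7_al), row NXU
-/

set_option autoImplicit false

namespace Pool.Agent.NE.NY

open Pool.Agent.helper58.DC Pool.Agent.DI Pool.Agent.GR Pool.Agent.OB Pool.Agent.DR Pool.Agent.FI Pool.Agent.FI3 Pool.Agent.FI4 Pool.Agent.FI4I Pool.Agent.LE Pool.Agent.L5
open Pool.Agent.NAB hiding Ucl BE NUB_stmt NUD_stmt NUH_stmt NUE_stmt NUF_stmt NTK_stmt NXU_stmt NQU_stmt
open Pool.Agent.ND hiding GS ZD XX PP ZGD_stmt ZNU_stmt GBC_stmt GUC_stmt GSP_stmt GIM_stmt GST_stmt GOS_stmt GS4_stmt GFX_stmt GAC_stmt GGR_stmt GOU_stmt GSY_stmt GVF_stmt GNV_stmt GDF_stmt GC1_stmt GEV_stmt GQQ_stmt GKQ_stmt TDC_stmt GKE_stmt GKD_stmt TDI_stmt TDL_stmt TDF_stmt NDQ_stmt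
open Pool.Agent.ND.NY
open Pool.Agent.ZB (Pm Om KZ EQ BQ lQ MZc BDK)

theorem NXU (hBEQ : BEQ_stmt) (hNUD : NUD_stmt) (hYE1 : YE1_stmt) (hZXU : Pool.Agent.ZB.ZXU_stmt) : NXU_stmt := by
  intro p e m M hM G _ _ L ψ hψ z x hu
  obtain ⟨D, y, hD, hzD, -, hKY⟩ := (hNUD p e m M hM G L ψ hψ z x hu).2
  have h1 := (hYE1 p hM.pr m G D).1 e hKY
  have hE : Eg p e z = EQ p m.s D := h1.2.2.2.2.2.1 z hzD hu.od
  have h2 := hZXU p m M hM G L ψ hψ D y hD h1.1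
  rw [hBEQ p e m M hM G L ψ hψ z x hu (Eg p e z), hE]
  exact h2

end Pool.Agent.NE.NY
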